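import Mathlib
import Pool.Agent.Helper17.Berk.BTop
import Pool.Agent.Helper22.Berk.Compact

/-!
# Uniform approximation by indicators of discs (module B18, MP_160e9b_an)
-/

open Polynomial Topology

set_option linter.dupNamespace false
set_option linter.unusedSectionVars false

namespace Pool.Agent.Helper44.Berk

open Pool.Agent.Helper17.Berk

universe u

variable {K : Type u} [NontriviallyNormedField K] [IsUltrametricDist K]

open Classical in
/-- indicator of the open disc -/
noncomputable def io (p : K × ℝ) (x : P1 K) : ℝ := if x ∈ oD p.1 p.2 then 1 else 0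

open Classical in
/-- indicator of the closed disc -/
noncomputable def ic (p : K × ℝ) (x : P1 K) : ℝ := if x ∈ cD p.1 p.2 then 1 else 0

theorem io_of_mem {p : K × ℝ} {x : P1 K} (h : x ∈ oD p.1 p.2) : io p x = 1 := if_pos h
theorem io_of_notMem {p : K × ℝ} {x : P1 K} (h : x ∉ oD p.1 p.2) : io p x = 0 := if_neg h
theorem ic_of_mem {p : K × ℝ} {x : P1 K} (h : x ∈ cD p.1 p.2) : ic p x = 1 := if_pos h
theorem ic_of_notMem {p : K × ℝ} {x : P1 K} (h : x ∉ cD p.1 p.2) : ic p x = 0 := if_neg h

/-- the generators -/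
def gens (K : Type u) [NontriviallyNormedField K] [IsUltrametricDist K] : Set (P1 K → ℝ) :=
  {f | f = 1 ∨ f = 0 ∨ ∃ p : K × ℝ, 0 < p.2 ∧ (f = io p ∨ f = ic p)}

/-- the product of the indicators of two nested or disjoint sets -/
theorem mul_mem_of {f g : P1 K → ℝ} (hf : f ∈ gens K) (hg : g ∈ gens K) {A B : Set (P1 K)}
    (hA : ∀ x, f x = A.indicator 1 x) (hB : ∀ x, g x = B.indicator 1 x)
    (h : A ⊆ B ∨ B ⊆ A ∨ Disjoint A B) : f * g ∈ gens K := by
  rcases h with h | h | h
  · have : f * g = f := by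
      funext x
      rw [Pi.mul_apply, hA, hB]
      by_cases hx : x ∈ A
      · rw [Set.indicator_of_mem hx, Set.indicator_of_mem (h hx)]; simp
      · rw [Set.indicator_of_notMem hx]; simp
    rw [this]; exact hf
  · have : f * g = g := by
      funext x
      rw [Pi.mul_apply, hA, hB]
      by_cases hx : x ∈ B
      · rw [Set.indicator_of_mem hx, Set.indicator_of_mem (h hx)]; simp
      · rw [Set.indicator_of_notMem hx]; simp
    rw [this]; exact hg
  · have : f * g = 0 := by
      funext x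
      rw [Pi.mul_apply, hA, hB]
      by_cases hx : x ∈ A
      · have hx' : x ∉ B := fun hx' => Set.disjoint_left.1 h hx hx'
        rw [Set.indicator_of_notMem hx']; simp
      · rw [Set.indicator_of_notMem hx]; simp
    rw [this]; exact Or.inr (Or.inl rfl)

theorem oD_oD (a b : K) (r s : ℝ) :
    oD a r ⊆ oD b s ∨ oD b s ⊆ oD a r ∨ Disjoint (oD a r : Set (P1 K)) (oD b s) := by
  rcases le_total r s with h | h
  · rcases oD_subset_or_disjoint (a := a) (b := b) h with h1 | h1
    · exact Or.inl h1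
    · exact Or.inr (Or.inr h1)
  · rcases oD_subset_or_disjoint (a := b) (b := a) h with h1 | h1
    · exact Or.inr (Or.inl h1)
    · exact Or.inr (Or.inr h1.symm)

theorem oD_cD (a b : K) (r s : ℝ) :
    oD a r ⊆ cD b s ∨ cD b s ⊆ oD a r ∨ Disjoint (oD a r : Set (P1 K)) (cD b s) := by
  by_cases h : Disjoint (oD a r : Set (P1 K)) (cD b s)
  · exact Or.inr (Or.inr h)
  · obtain ⟨z, h1, h2⟩ := Set.not_disjoint_iff.1 h
    obtain ⟨x, rfl, hx⟩ := h1
    rw [coe_mem_cD] at h2
    have hab := x.norm_sub_le a b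
    rcases lt_or_ge s r with hs | hs
    · right; left
      rintro _ ⟨y, rfl, hy⟩
      rw [coe_mem_oD]
      have h3 := y.lin_le a b
      exact lt_of_le_of_lt h3 (max_lt (lt_of_le_of_lt hy hs)
        (lt_of_le_of_lt hab (max_lt hx (lt_of_le_of_lt h2 hs))))
    · left
      rintro _ ⟨y, rfl, hy⟩
      rw [coe_mem_cD]
      have h3 := y.lin_le b a
      rw [norm_sub_rev] at h3
      exact h3.trans (max_le (hy.le.trans hs) (hab.trans (max_le (hx.le.trans hs) h2)))

theorem cD_cD (a b : K) (r s : ℝ) :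
    cD a r ⊆ cD b s ∨ cD b s ⊆ cD a r ∨ Disjoint (cD a r : Set (P1 K)) (cD b s) := by
  by_cases h : Disjoint (cD a r : Set (P1 K)) (cD b s)
  · exact Or.inr (Or.inr h)
  · obtain ⟨z, h1, h2⟩ := Set.not_disjoint_iff.1 h
    obtain ⟨x, rfl, hx⟩ := h1
    rw [coe_mem_cD] at h2
    have hab := x.norm_sub_le a b
    rcases le_total s r with hs | hs
    · right; left
      rintro _ ⟨y, rfl, hy⟩
      rw [coe_mem_cD]
      have h3 := y.lin_le a b
      exact h3.trans (max_le (hy.trans hs) (hab.trans (max_le hx (h2.trans hs))))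
    · left
      rintro _ ⟨y, rfl, hy⟩
      rw [coe_mem_cD]
      have h3 := y.lin_le b a
      rw [norm_sub_rev] at h3
      exact h3.trans (max_le (hy.trans hs) (hab.trans (max_le (hx.trans hs) h2)))

theorem io_eq (p : K × ℝ) (x : P1 K) : io p x = (oD p.1 p.2 : Set (P1 K)).indicator 1 x := by
  by_cases h : x ∈ oD p.1 p.2
  · rw [io_of_mem h, Set.indicator_of_mem h]; rfl
  · rw [io_of_notMem h, Set.indicator_of_notMem h]

theorem ic_eq (p : K × ℝ) (x : P1 K) : ic p x = (cD p.1 p.2 : Set (P1 K)).indicator 1 x := by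
  by_cases h : x ∈ cD p.1 p.2
  · rw [ic_of_mem h, Set.indicator_of_mem h]; rfl
  · rw [ic_of_notMem h, Set.indicator_of_notMem h]

theorem io_mem {p : K × ℝ} (hp : 0 < p.2) : io p ∈ gens K := Or.inr (Or.inr ⟨p, hp, Or.inl rfl⟩)
theorem ic_mem {p : K × ℝ} (hp : 0 < p.2) : ic p ∈ gens K := Or.inr (Or.inr ⟨p, hp, Or.inr rfl⟩)

theorem gens_mul {f g : P1 K → ℝ} (hf : f ∈ gens K) (hg : g ∈ gens K) : f * g ∈ gens K := by
  have hf' := hf
  have hg' := hg
  rcases hf with rfl | rfl | ⟨p, hp, rfl | rfl⟩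
  · rwa [one_mul]
  · rw [zero_mul]; exact Or.inr (Or.inl rfl)
  · rcases hg with rfl | rfl | ⟨q, hq, rfl | rfl⟩
    · rwa [mul_one]
    · rw [mul_zero]; exact Or.inr (Or.inl rfl)
    · exact mul_mem_of hf' hg' (io_eq p) (io_eq q) (oD_oD _ _ _ _)
    · exact mul_mem_of hf' hg' (io_eq p) (ic_eq q) (oD_cD _ _ _ _)
  · rcases hg with rfl | rfl | ⟨q, hq, rfl | rfl⟩
    · rwa [mul_one]
    · rw [mul_zero]; exact Or.inr (Or.inl rfl)
    · rw [mul_comm]
      exact mul_mem_of hg' hf' (io_eq q) (ic_eq p) (oD_cD _ _ _ _)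
    · exact mul_mem_of hf' hg' (ic_eq p) (ic_eq q) (cD_cD _ _ _ _)

/-- step functions -/
def W (K : Type u) [NontriviallyNormedField K] [IsUltrametricDist K] : Submodule ℝ (P1 K → ℝ) :=
  Submodule.span ℝ (gens K)

theorem gens_le {f : P1 K → ℝ} (h : f ∈ gens K) : f ∈ W K := Submodule.subset_span h

theorem one_mem_W : (1 : P1 K → ℝ) ∈ W K := gens_le (Or.inl rfl)

theorem W_mul {f g : P1 K → ℝ} (hf : f ∈ W K) (hg : g ∈ W K) : f * g ∈ W K := by
  induction hf, hg using Submodule.span_induction₂ with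
  | mem_mem x y hx hy => exact gens_le (gens_mul hx hy)
  | zero_left y hy => rw [zero_mul]; exact zero_mem _
  | zero_right x hx => rw [mul_zero]; exact zero_mem _
  | add_left x y z hx hy hz h1 h2 => rw [add_mul]; exact add_mem h1 h2
  | add_right x y z hx hy hz h1 h2 => rw [mul_add]; exact add_mem h1 h2
  | smul_left r x y hx hy h => rw [smul_mul_assoc]; exact Submodule.smul_mem _ _ h
  | smul_right r x y hx hy h => rw [mul_smul_comm]; exact Submodule.smul_mem _ _ h

/-- explicit form of step functions -/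
theorem exists_form {f : P1 K → ℝ} (hf : f ∈ W K) :
    ∃ (S : Finset (K × ℝ)) (c₀ : ℝ) (u v : K × ℝ → ℝ), (∀ p ∈ S, 0 < p.2) ∧
      (∀ p ∉ S, u p = 0 ∧ v p = 0) ∧
      ∀ x : P1 K, f x = c₀ + ∑ p ∈ S, (u p * io p x + v p * ic p x) := by
  classical
  induction hf using Submodule.span_induction with
  | mem f hf =>
    rcases hf with rfl | rfl | ⟨p, hp, rfl | rfl⟩
    · exact ⟨∅, 1, 0, 0, by simp, by simp, by simp⟩
    · exact ⟨∅, 0, 0, 0, by simp, by simp, by simp⟩
    · refine ⟨{p}, 0, fun q => if q = p then 1 else 0, 0, ?_, ?_, ?_⟩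
      · intro q hq; rw [Finset.mem_singleton.1 hq]; exact hp
      · intro q hq; simp only [Finset.mem_singleton] at hq; simp [hq]
      · intro x; simp
    · refine ⟨{p}, 0, 0, fun q => if q = p then 1 else 0, ?_, ?_, ?_⟩
      · intro q hq; rw [Finset.mem_singleton.1 hq]; exact hp
      · intro q hq; simp only [Finset.mem_singleton] at hq; simp [hq]
      · intro x; simp
  | zero => exact ⟨∅, 0, 0, 0, by simp, by simp, by simp⟩
  | add f g _ _ hf hg =>
    obtain ⟨S, c, u, v, h1, h2, h3⟩ := hf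
    obtain ⟨S', c', u', v', h1', h2', h3'⟩ := hg
    refine ⟨S ∪ S', c + c', u + u', v + v', ?_, ?_, ?_⟩
    · intro p hp
      rcases Finset.mem_union.1 hp with h | h
      · exact h1 p h
      · exact h1' p h
    · intro p hp
      rw [Finset.mem_union, not_or] at hp
      simp [h2 p hp.1, h2' p hp.2]
    · intro x
      have e1 : ∑ p ∈ S, (u p * io p x + v p * ic p x) =
          ∑ p ∈ S ∪ S', (u p * io p x + v p * ic p x) := by
        refine Finset.sum_subset Finset.subset_union_left fun p _ hp => ?_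
        rw [(h2 p hp).1, (h2 p hp).2]; simp
      have e2 : ∑ p ∈ S', (u' p * io p x + v' p * ic p x) =
          ∑ p ∈ S ∪ S', (u' p * io p x + v' p * ic p x) := by
        refine Finset.sum_subset Finset.subset_union_right fun p _ hp => ?_
        rw [(h2' p hp).1, (h2' p hp).2]; simp
      rw [Pi.add_apply, h3, h3', e1, e2, add_add_add_comm, ← Finset.sum_add_distrib]
      congr 1
      refine Finset.sum_congr rfl fun p _ => ?_
      simp only [Pi.add_apply]; ring
  | smul r f _ hf =>
    obtain ⟨S, c, u, v, h1, h2, h3⟩ := hf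
    refine ⟨S, r * c, fun p => r * u p, fun p => r * v p, h1, ?_, ?_⟩
    · intro p hp; simp [h2 p hp]
    · intro x
      rw [Pi.smul_apply, smul_eq_mul, h3, mul_add, Finset.mul_sum]
      congr 1
      refine Finset.sum_congr rfl fun p _ => ?_
      ring

/-- functions which are uniform limits of step functions -/
def Appr (φ : P1 K → ℝ) : Prop := ∀ ε : ℝ, 0 < ε → ∃ f ∈ W K, ∀ x, |φ x - f x| ≤ ε

theorem Appr.add {φ ψ : P1 K → ℝ} (h1 : Appr φ) (h2 : Appr ψ) : Appr (φ + ψ) := by
  intro ε hε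
  obtain ⟨f, hf, hf'⟩ := h1 (ε / 2) (by positivity)
  obtain ⟨g, hg, hg'⟩ := h2 (ε / 2) (by positivity)
  refine ⟨f + g, add_mem hf hg, fun x => ?_⟩
  have e : (φ + ψ) x - (f + g) x = (φ x - f x) + (ψ x - g x) := by
    simp only [Pi.add_apply]; ring
  rw [e]
  refine (abs_add_le _ _).trans ?_
  have := hf' x
  have := hg' x
  linarith

theorem appr_const (c : ℝ) : Appr (fun _ : P1 K => c) := by
  intro ε hε
  refine ⟨c • (1 : P1 K → ℝ), Submodule.smul_mem _ _ one_mem_W, fun x => ?_⟩
  simp [hε.le]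

theorem Appr.mul {φ ψ : P1 K → ℝ} (h1 : Appr φ) (h2 : Appr ψ) {A B : ℝ} (hA : ∀ x, |φ x| ≤ A)
    (hB : ∀ x, |ψ x| ≤ B) : Appr (φ * ψ) := by
  intro ε hε
  have hA0 : 0 ≤ A := (abs_nonneg _).trans (hA OnePoint.infty)
  have hB0 : 0 ≤ B := (abs_nonneg _).trans (hB OnePoint.infty)
  obtain ⟨f, hf, hf'⟩ := h1 (min 1 (ε / (A + B + 1))) (by positivity)
  obtain ⟨g, hg, hg'⟩ := h2 (ε / (A + B + 1)) (by positivity)
  refine ⟨f * g, W_mul hf hg, fun x => ?_⟩
  have e : (φ * ψ) x - (f * g) x = (φ x - f x) * ψ x + f x * (ψ x - g x) := by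
    simp only [Pi.mul_apply]; ring
  have hfx : |f x| ≤ A + 1 := by
    have h3 : f x = φ x - (φ x - f x) := by ring
    rw [h3]
    refine (abs_sub _ _).trans ?_
    have := hA x
    have := (hf' x).trans (min_le_left _ _)
    linarith
  rw [e]
  refine (abs_add_le _ _).trans ?_
  rw [abs_mul, abs_mul]
  have h4 := (hf' x).trans (min_le_right _ _)
  have h5 := hg' x
  have h6 : |φ x - f x| * |ψ x| ≤ ε / (A + B + 1) * B :=
    mul_le_mul h4 (hB x) (abs_nonneg _) (by positivity)
  have h7 : |f x| * |ψ x - g x| ≤ (A + 1) * (ε / (A + B + 1)) :=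
    mul_le_mul hfx h5 (abs_nonneg _) (by positivity)
  have h8 : ε / (A + B + 1) * B + (A + 1) * (ε / (A + B + 1)) = ε := by
    field_simp
    ring
  linarith

/-- the ramp `max r (min s |T - a|)` -/
noncomputable def rmp (a : K) (r s : ℝ) : P1 K → ℝ
  | OnePoint.infty => max r s
  | OnePoint.some x => max r (min s (x (X - C a)))

theorem rmp_infty (a : K) (r s : ℝ) : rmp a r s (OnePoint.infty : P1 K) = max r s := rfl
theorem rmp_coe (a : K) (r s : ℝ) (x : Berk K) :
    rmp a r s (x : P1 K) = max r (min s (x (X - C a))) := rfl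

theorem le_of_X_large (a : K) (x : Berk K) {M : ℝ} (h : max M ‖a‖ < x X) : M < x (X - C a) := by
  by_contra hcon
  push Not at hcon
  have h1 : x X ≤ max (x (X - C a)) ‖a‖ := by
    have := x.map_add_le (X - C a) (C a)
    simpa using this
  exact absurd (h1.trans (max_le_max hcon le_rfl)) (not_le.2 h)

theorem continuous_rmp (a : K) (r s : ℝ) : Continuous (rmp a r s : P1 K → ℝ) := by
  refine Pool.Agent.Helper22.Berk.continuous_P1 ?_ fun V hV => ⟨max s ‖a‖, fun x hx => ?_⟩
  · exact continuous_const.max (continuous_const.min (Berk.continuous_eval _))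
  · rw [rmp_coe, min_eq_left (le_of_X_large a x hx).le]
    exact mem_of_mem_nhds hV

theorem rmp_step (a : K) {r δ : ℝ} (hr : 0 < r) (hδ : 0 < δ) (N : ℕ) :
    ∃ f ∈ W K, (∀ x : P1 K, |rmp a r (r + N * δ) x - f x| ≤ δ) ∧
      ∀ x : P1 K, x ∉ oD a (r + N * δ) → f x = r + N * δ := by
  induction N with
  | zero =>
    refine ⟨r • (1 : P1 K → ℝ), Submodule.smul_mem _ _ one_mem_W, fun x => ?_, fun x _ => by simp⟩
    have : rmp a r (r + (0 : ℕ) * δ) x = r := by
      induction x using OnePoint.rec with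
      | infty => rw [rmp_infty]; simp
      | coe x => rw [rmp_coe]; simp
    rw [this]
    simp [hδ.le]
  | succ N ih =>
    obtain ⟨f, hf, h1, h2⟩ := ih
    set t : ℝ := r + (N + 1 : ℕ) * δ with ht
    have ht' : t = (r + N * δ) + δ := by rw [ht]; push_cast; ring
    have hN0 : 0 ≤ (N : ℝ) * δ := by positivity
    have ht0 : 0 < t := by rw [ht']; linarith
    have hg : δ • ((1 : P1 K → ℝ) - io (a, t)) ∈ W K :=
      Submodule.smul_mem _ _ (sub_mem one_mem_W (gens_le (io_mem (p := (a, t)) ht0)))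
    refine ⟨f + δ • ((1 : P1 K → ℝ) - io (a, t)), add_mem hf hg, fun x => ?_, fun x hx => ?_⟩
    · by_cases hx : x ∈ oD a t
      · rw [Pi.add_apply, Pi.smul_apply, Pi.sub_apply, io_of_mem (p := (a, t)) hx]
        simp only [Pi.one_apply, sub_self, smul_zero, add_zero]
        obtain ⟨y, rfl, hy⟩ := hx
        by_cases hy' : y (X - C a) < r + N * δ
        · have h3 := h1 (y : P1 K)
          rw [rmp_coe] at h3 ⊢
          rwa [min_eq_right hy.le, ← min_eq_right hy'.le]
        · have h3 := h2 (y : P1 K) (by rw [coe_mem_oD]; exact hy')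
          rw [h3, rmp_coe, min_eq_right hy.le]
          push Not at hy'
          rw [max_eq_right (by linarith), abs_le]
          constructor <;> linarith
      · rw [Pi.add_apply, Pi.smul_apply, Pi.sub_apply, io_of_notMem (p := (a, t)) hx]
        have hx' : x ∉ oD a (r + N * δ) := by
          intro h
          apply hx
          obtain ⟨y, rfl, hy⟩ := h
          exact ⟨y, rfl, by linarith⟩
        have hval : rmp a r t x = t := by
          induction x using OnePoint.rec with
          | infty => rw [rmp_infty, max_eq_right (by linarith)]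
          | coe y =>
            rw [coe_mem_oD, not_lt] at hx
            rw [rmp_coe, min_eq_left hx, max_eq_right (by linarith)]
        rw [h2 x hx', hval]
        simp only [Pi.one_apply, sub_zero, smul_eq_mul, mul_one]
        rw [ht', sub_self, abs_zero]
        exact hδ.le
    · rw [Pi.add_apply, Pi.smul_apply, Pi.sub_apply, io_of_notMem (p := (a, t)) hx]
      have hx' : x ∉ oD a (r + N * δ) := by
        intro h
        apply hx
        obtain ⟨y, rfl, hy⟩ := h
        exact ⟨y, rfl, by linarith⟩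
      rw [h2 x hx']
      simp only [Pi.one_apply, sub_zero, smul_eq_mul, mul_one]
      rw [ht']

theorem appr_rmp (a : K) {r s : ℝ} (hr : 0 < r) (hs : r < s) : Appr (rmp a r s : P1 K → ℝ) := by
  intro ε hε
  obtain ⟨N, hN⟩ := exists_nat_gt ((s - r) / ε)
  have hN0 : 0 < (N : ℝ) := lt_of_le_of_lt (div_nonneg (by linarith) hε.le) hN
  set δ := (s - r) / N with hδ
  have hδ0 : 0 < δ := div_pos (by linarith) hN0
  have hδε : δ ≤ ε := by
    rw [hδ, div_le_iff₀ hN0]
    rw [div_lt_iff₀ hε] at hN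
    linarith
  obtain ⟨f, hf, h1, -⟩ := rmp_step a hr hδ0 N
  have e : r + N * δ = s := by rw [hδ]; field_simp; ring
  rw [e] at h1
  exact ⟨f, hf, fun x => (h1 x).trans hδε⟩

/-- the subalgebra of approximable continuous functions -/
noncomputable def ApprAlg (K : Type u) [NontriviallyNormedField K] [IsUltrametricDist K] :
    Subalgebra ℝ C(P1 K, ℝ) where
  carrier := {φ | Appr (φ : P1 K → ℝ)}
  mul_mem' := by
    intro φ ψ h1 h2
    exact Appr.mul h1 h2 (A := ‖φ‖) (B := ‖ψ‖) (fun x => φ.norm_coe_le_norm x)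
      (fun x => ψ.norm_coe_le_norm x)
  add_mem' := by
    intro φ ψ h1 h2
    exact Appr.add h1 h2
  algebraMap_mem' := fun c => appr_const c

theorem isClosed_ApprAlg : IsClosed (ApprAlg K : Set C(P1 K, ℝ)) := by
  rw [← isSeqClosed_iff_isClosed]
  intro φ ψ hφ hψ ε hε
  rw [Metric.tendsto_atTop] at hψ
  obtain ⟨N, hN⟩ := hψ (ε / 2) (by positivity)
  obtain ⟨f, hf, hf'⟩ := hφ N (ε / 2) (by positivity)
  refine ⟨f, hf, fun x => ?_⟩
  have h1 : |φ N x - ψ x| ≤ ε / 2 := by
    have h2 := (ContinuousMap.dist_apply_le_dist (f := φ N) (g := ψ) x).trans (hN N le_rfl).le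
    rwa [Real.dist_eq] at h2
  have h3 := hf' x
  have e : ψ x - f x = (φ N x - f x) - (φ N x - ψ x) := by ring
  rw [e]
  refine (abs_sub _ _).trans ?_
  linarith

variable [IsAlgClosed K]

theorem sep_aux (a : K) {x y : Berk K} (h : x (X - C a) < y (X - C a)) :
    ∃ φ ∈ ApprAlg K, φ (x : P1 K) ≠ φ (y : P1 K) := by
  have hx0 := x.nonneg (X - C a)
  set r : ℝ := (x (X - C a) + y (X - C a)) / 2 with hr
  have hr0 : 0 < r := by linarith
  have hrs : r < y (X - C a) := by linarith
  refine ⟨⟨rmp a r (y (X - C a)), continuous_rmp _ _ _⟩, appr_rmp a hr0 hrs, ?_⟩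
  change rmp a r (y (X - C a)) (x : P1 K) ≠ rmp a r (y (X - C a)) (y : P1 K)
  rw [rmp_coe, rmp_coe, min_eq_right h.le, min_self, max_eq_left (by linarith),
    max_eq_right hrs.le]
  exact hrs.ne

theorem sep_infty (x : Berk K) : ∃ φ ∈ ApprAlg K, φ (x : P1 K) ≠ φ (OnePoint.infty : P1 K) := by
  have hx0 := x.nonneg (X - C 0)
  set r : ℝ := x (X - C 0) + 1 with hr
  have hr0 : 0 < r := by linarith
  refine ⟨⟨rmp 0 r (r + 1), continuous_rmp _ _ _⟩, appr_rmp 0 hr0 (by linarith), ?_⟩
  change rmp 0 r (r + 1) (x : P1 K) ≠ rmp 0 r (r + 1) (OnePoint.infty : P1 K)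
  rw [rmp_coe, rmp_infty, min_eq_right (by linarith), max_eq_left (by linarith),
    max_eq_right (by linarith)]
  linarith

theorem separates : (ApprAlg K).SeparatesPoints := by
  intro x y hxy
  have key : ∀ x y : P1 K, x ≠ y → ∃ φ ∈ ApprAlg K, φ x ≠ φ y := by
    intro x y hxy
    induction x using OnePoint.rec with
    | infty =>
      induction y using OnePoint.rec with
      | infty => exact absurd rfl hxy
      | coe y =>
        obtain ⟨φ, h1, h2⟩ := sep_infty y
        exact ⟨φ, h1, h2.symm⟩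
    | coe x =>
      induction y using OnePoint.rec with
      | infty => exact sep_infty x
      | coe y =>
        have hne : ¬ ∀ a, x (X - C a) = y (X - C a) := fun h => hxy (by rw [Berk.ext_lin h])
        push Not at hne
        obtain ⟨a, ha⟩ := hne
        rcases lt_or_gt_of_ne ha with h | h
        · exact sep_aux a h
        · obtain ⟨φ, h1, h2⟩ := sep_aux a h
          exact ⟨φ, h1, h2.symm⟩
  obtain ⟨φ, h1, h2⟩ := key x y hxy
  exact ⟨φ, ⟨φ, h1, rfl⟩, h2⟩

open Classical in
/-- uniform approximation of continuous functions by combinations of indicators of discs. -/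
theorem exists_step (φ : C(P1 K, ℝ)) {ε : ℝ} (hε : 0 < ε) :
    ∃ (S : Finset (K × ℝ)) (c₀ : ℝ) (u v : K × ℝ → ℝ), (∀ p ∈ S, 0 < p.2) ∧
      ∀ x : P1 K, |φ x - (c₀ + ∑ p ∈ S, ((u p) * (if x ∈ oD p.1 p.2 then 1 else 0) +
        (v p) * (if x ∈ cD p.1 p.2 then 1 else 0)))| ≤ ε := by
  have htop := ContinuousMap.subalgebra_topologicalClosure_eq_top_of_separatesPoints
    (ApprAlg K) separates
  have hle : (ApprAlg K).topologicalClosure ≤ ApprAlg K :=
    Subalgebra.topologicalClosure_minimal le_rfl isClosed_ApprAlg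
  have hφ : φ ∈ ApprAlg K := hle (by rw [htop]; trivial)
  obtain ⟨f, hf, hf'⟩ := hφ ε hε
  obtain ⟨S, c₀, u, v, h1, -, h3⟩ := exists_form hf
  refine ⟨S, c₀, u, v, h1, fun x => ?_⟩
  have := hf' x
  rw [h3] at this
  exact this

end Pool.Agent.Helper44.Berk
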